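import Pool.Agent.H76.SF.Stm2

/-!
Part REG of the crew SF (MP_705b7e_co): regular circulant graphs.
-/

set_option autoImplicit false

namespace H76.SF

open Finset Classical Pool.Agent.Results.MP_705b7e_co.StarForestBounds

lemma reg_base (m b : ℕ) (h : 2 * b < m) :
    (∀ s ∈ Icc 1 b ∪ Ico (m - b) m, 1 ≤ s ∧ s < m ∧ m - s ∈ Icc 1 b ∪ Ico (m - b) m) ∧
      (Icc 1 b ∪ Ico (m - b) m).card = 2 * b := by
  constructor
  · intro s hs
    simp only [mem_union, mem_Icc, mem_Ico] at hs ⊢
    omega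
  · rw [card_union_of_disjoint]
    · rw [Nat.card_Icc, Nat.card_Ico]
      omega
    · rw [disjoint_left]
      intro x hx hy
      simp only [mem_Icc, mem_Ico] at hx hy
      omega

lemma reg_set (m a : ℕ) (h : a < m) (he : Even (m * a)) :
    ∃ S : Finset ℕ, (∀ s ∈ S, 1 ≤ s ∧ s < m ∧ m - s ∈ S) ∧ S.card = a := by
  rcases Nat.even_or_odd' a with ⟨b, rfl | rfl⟩
  · obtain ⟨h1, h2⟩ := reg_base m b h
    exact ⟨_, h1, h2⟩
  · have hm : Even m := by
      rcases Nat.even_mul.1 he with h1 | h1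
      · exact h1
      · exact absurd h1 (by simp)
    obtain ⟨r, hr⟩ := hm
    obtain ⟨h1, h2⟩ := reg_base m b (by omega)
    have hrn : r ∉ Icc 1 b ∪ Ico (m - b) m := by
      simp only [mem_union, mem_Icc, mem_Ico]
      omega
    refine ⟨insert r (Icc 1 b ∪ Ico (m - b) m), ?_, ?_⟩
    · intro s hs
      rcases mem_insert.1 hs with rfl | hs
      · refine ⟨by omega, by omega, ?_⟩
        rw [show m - s = s by omega]
        exact mem_insert_self _ _
      · obtain ⟨p1, p2, p3⟩ := h1 s hs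
        exact ⟨p1, p2, mem_insert_of_mem p3⟩
    · rw [card_insert_of_notMem hrn, h2]

lemma reg_zmod (m a : ℕ) [NeZero m] (h : a < m) (he : Even (m * a)) :
    ∃ H : SimpleGraph (ZMod m), ∀ v, (univ.filter (fun x => H.Adj v x)).card = a := by
  obtain ⟨S, hS, hc⟩ := reg_set m a h he
  obtain ⟨D, hD⟩ : ∃ D : Finset (ZMod m), D = univ.filter (fun x : ZMod m => x.val ∈ S) := ⟨_, rfl⟩
  have hmem : ∀ x, x ∈ D ↔ x.val ∈ S := by
    intro x
    rw [hD]
    simp
  have h0 : (0 : ZMod m) ∉ D := by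
    rw [hmem, ZMod.val_zero]
    intro h0
    have := (hS 0 h0).1
    omega
  have hneg : ∀ x, x ∈ D → -x ∈ D := by
    intro x hx
    have hx0 : x ≠ 0 := fun h => h0 (h ▸ hx)
    rw [hmem, ZMod.neg_val, if_neg hx0]
    exact (hS _ ((hmem x).1 hx)).2.2
  have hcard : D.card = a := by
    rw [← hc, ← card_image_of_injective D (ZMod.val_injective m)]
    congr 1
    ext s
    rw [mem_image]
    constructor
    · rintro ⟨x, hx, rfl⟩
      exact (hmem x).1 hx
    · intro hs
      have hv : ((s : ℕ) : ZMod m).val = s := ZMod.val_cast_of_lt (hS s hs).2.1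
      exact ⟨(s : ZMod m), (hmem _).2 (hv.symm ▸ hs), hv⟩
  let H : SimpleGraph (ZMod m) :=
    { Adj := fun i j => j - i ∈ D
      symm := ⟨fun i j hij => (neg_sub j i) ▸ hneg _ hij⟩
      loopless := ⟨fun i hi => h0 ((sub_self i) ▸ hi)⟩ }
  refine ⟨H, fun v => ?_⟩
  rw [← hcard, ← card_image_of_injective D (add_right_injective v)]
  refine congrArg Finset.card ?_
  ext x
  simp only [mem_filter, mem_image, mem_univ, true_and]
  constructor
  · intro hx
    have hx' : x - v ∈ D := hx
    exact ⟨x - v, hx', by abel⟩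
  · rintro ⟨y, hy, rfl⟩
    have h1 : v + y - v ∈ D := by rwa [add_sub_cancel_left]
    exact h1

theorem t_REG : S_REG := by
  intro m a h he
  cases m with
  | zero => exact absurd h (Nat.not_lt_zero _)
  | succ k => exact reg_zmod (k + 1) a h he

end H76.SF
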